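import Pool.Agent.TH706.NM.Sim
import Pool.Agent.H867R4.NCount

set_option autoImplicit false

/-!
# Counting the inputs accepted by nondeterministic automata with a memory

(after `Pool.Agent.H867R4.NCount`)
-/

namespace Pool.Agent.TH706.NM

open Finset
open Pool.Agent.H541R2 (rd mv mv_le le_mv gsign mu mu_nonneg IsCyl isCyl_univ cyl_card)
open Pool.Agent.H867R4 (NMach NCfg Code Out out_of_block exists_row pos_close)

variable {k : ℕ} {Q St : Type}

/-- The computation `ρ` splits up to time `T` into `I` pieces, each of which has at most `n` steps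
or is a piece during which the memory does not change and at most one head moves. -/
def Pieces (n T I : ℕ) (ρ : ℕ → NCfg k (Q × St)) : Prop :=
  ∃ t : ℕ → ℕ, t 0 = 0 ∧ t I = T ∧ ∀ j < I, t j ≤ t (j + 1) ∧
    (t (j + 1) ≤ t j + n ∨
      ∃ h : Fin k, ∀ s, t j ≤ s → s < t (j + 1) →
        (ρ (s + 1)).q.2 = (ρ s).q.2 ∧ ∀ i, i ≠ h → (ρ (s + 1)).p i = (ρ s).p i)

/-- A phase with free row `r`. -/
def Phase (C : Code Q) (M : NMach (Fin 4) k (Q × St)) {g N : ℕ} (b : Fin g → Fin N → Bool) (r : Fin g)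
    (c d : NCfg k (Q × St)) : Prop :=
  Free M (C.U b r) (C.zone (List.ofFn (b r))) (C.U' b r) c d

theorem phase_indep (C : Code Q) (M : NMach (Fin 4) k (Q × St)) {g N : ℕ} (r : Fin g) (c d : NCfg k (Q × St))
    (b b' : Fin g → Fin N → Bool) (hbb : ∀ j, j ≠ r → b j = b' j) (h : Phase C M b r c d) :
    Phase C M b' r c d := by
  unfold Phase at *
  obtain ⟨h1, h2⟩ := C.U_congr b b' r hbb
  rw [← h1, ← h2]
  exact h.congr (C.U_ne b r) (by rw [C.zone_length, C.zone_length]; simp)
    (C.beh_zone _ _ (by simp))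

/-- Acceptance within `R` phases. -/
def AccIn (C : Code Q) (M : NMach (Fin 4) k (Q × St)) {g N : ℕ} (K : Finset (NCfg k (Q × St))) :
    ℕ → NCfg k (Q × St) → (Fin g → Fin N → Bool) → Prop
  | 0, c, _ => c.q ∈ M.F
  | (R + 1), c, b => ∃ r : Fin g, ∃ d ∈ K, Phase C M b r c d ∧ AccIn C M K R d b

open Classical in
theorem accIn_card (C : Code Q) {g N : ℕ} (M : NMach (Fin 4) k (Q × St))
    (K : Finset (NCfg k (Q × St))) (σ : ℝ) (hσ : |σ| = 1) : ∀ (R : ℕ) (c : NCfg k (Q × St))
    (S : Set (Fin (g + 1) → Fin N → Bool)), IsCyl S →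
    (∀ b ∈ S, AccIn C M K R c b → gsign Finset.univ b = σ) →
    ((Finset.univ.filter (fun b => b ∈ S ∧ AccIn C M K R c b)).card : ℝ) ≤
      ((g + 1 : ℝ) * K.card) ^ R * ((2 ^ N : ℝ) ^ (g + 1) * (mu g) ^ N) := by
  intro R
  induction R with
  | zero =>
    intro c S hS hb
    rw [pow_zero, one_mul]
    by_cases hc : c.q ∈ M.F
    · have e : (Finset.univ.filter (fun b => b ∈ S ∧ AccIn C M K 0 c b)) =
          Finset.univ.filter (fun b => b ∈ S) := by
        ext b; simp [AccIn, hc]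
      rw [e]
      exact cyl_card hS σ hσ (fun b hbS => hb b hbS hc)
    · have e : (Finset.univ.filter (fun b => b ∈ S ∧ AccIn C M K 0 c b)) = ∅ := by
        ext b; simp [AccIn, hc]
      rw [e]
      have := mu_nonneg g
      simp only [Finset.card_empty, Nat.cast_zero]
      positivity
  | succ R ih =>
    intro c S hS hb
    obtain ⟨S', hS'⟩ : ∃ S' : Fin (g + 1) × NCfg k (Q × St) → Set (Fin (g + 1) → Fin N → Bool),
        ∀ x, S' x = S ∩ {b | Phase C M b x.1 c x.2} := ⟨_, fun _ => rfl⟩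
    obtain ⟨G, hG⟩ : ∃ G : Fin (g + 1) × NCfg k (Q × St) → Finset (Fin (g + 1) → Fin N → Bool),
        ∀ x, G x = Finset.univ.filter (fun b => b ∈ S' x ∧ AccIn C M K R x.2 b) := ⟨_, fun _ => rfl⟩
    have hsub : (Finset.univ.filter (fun b => b ∈ S ∧ AccIn C M K (R + 1) c b)) ⊆
        ((Finset.univ : Finset (Fin (g + 1))) ×ˢ K).biUnion G := by
      intro b hb'
      rw [Finset.mem_filter] at hb'
      obtain ⟨_, hbS, r, d, hd, hT, hacc⟩ := hb'
      rw [Finset.mem_biUnion]
      refine ⟨(r, d), by simp [hd], ?_⟩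
      rw [hG, Finset.mem_filter]
      refine ⟨Finset.mem_univ _, ?_, hacc⟩
      rw [hS']
      exact ⟨hbS, hT⟩
    have h1 := (Finset.card_le_card hsub).trans Finset.card_biUnion_le
    have h2 : ∀ x ∈ ((Finset.univ : Finset (Fin (g + 1))) ×ˢ K), ((G x).card : ℝ) ≤
          ((g + 1 : ℝ) * K.card) ^ R * ((2 ^ N : ℝ) ^ (g + 1) * (mu g) ^ N) := by
      intro x hx
      have hd : x.2 ∈ K := by
        rw [Finset.mem_product] at hx; exact hx.2
      rw [hG]
      refine ih x.2 (S' x) ?_ ?_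
      · rw [hS']
        apply hS.inter x.1
        intro b b' hbb hT
        exact phase_indep C M x.1 c x.2 b b' hbb hT
      · intro b hbS hacc
        rw [hS'] at hbS
        exact hb b hbS.1 ⟨x.1, x.2, hd, hbS.2, hacc⟩
    have h3 : ((Finset.univ.filter (fun b => b ∈ S ∧ AccIn C M K (R + 1) c b)).card : ℝ) ≤
        ∑ x ∈ ((Finset.univ : Finset (Fin (g + 1))) ×ˢ K), ((G x).card : ℝ) := by
      rw [← Nat.cast_sum]
      exact Nat.cast_le.mpr h1
    refine h3.trans ((Finset.sum_le_sum h2).trans (le_of_eq ?_))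
    rw [Finset.sum_const, nsmul_eq_mul, Finset.card_product, Finset.card_univ, Fintype.card_fin]
    push_cast
    ring

/-- Short pieces are phases. -/
theorem phase_short (C : Code Q) (M : NMach (Fin 4) k (Q × St)) {N : ℕ}
    (b : Fin (3 * k + 1) → Fin N → Bool) {ρ : ℕ → NCfg k (Q × St)} (t m : ℕ)
    (hm : m ≤ N * (C.x₁.length + 1))
    (h1 : ∀ s, t ≤ s → s < t + m → M.Step (C.W b) (ρ s) (ρ (s + 1)))
    (h2 : ∀ i, (ρ t).p i ≤ (C.W b).length + 1) :
    ∃ r, Phase C M b r (ρ t) (ρ (t + m)) := by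
  obtain ⟨D, hD⟩ : ∃ D, D = N * (C.x₁.length + 1) + 1 := ⟨_, rfl⟩
  have hDpos : 0 < D := by omega
  obtain ⟨r, hr⟩ := exists_row (fun (i : Fin k) (e : Fin 3) => (ρ t).p i / D + e.val - 1)
  refine ⟨r, ?_⟩
  unfold Phase
  have hW := C.W_split b r
  apply free_of_out m t
  · intro s hs hs'
    rw [← hW]
    exact h1 s hs hs'
  · intro s hs hs' i
    apply out_of_block
    rw [← hD]
    intro hblk
    obtain ⟨m', rfl⟩ := Nat.exists_eq_add_of_le hs
    obtain ⟨a1, a2, _⟩ := pos_close m' (fun s hs hs'' => h1 s hs (by omega)) h2 i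
    have e0 := hr i 0
    have e1 := hr i 1
    have e2 := hr i 2
    simp only [Fin.val_zero, Fin.val_one, Fin.val_two] at e0 e1 e2
    have hq1 : (ρ (t + m')).p i / D ≤ (ρ t).p i / D + 1 := by
      calc (ρ (t + m')).p i / D ≤ ((ρ t).p i + D) / D := Nat.div_le_div_right (by omega)
        _ = (ρ t).p i / D + 1 := Nat.add_div_right _ hDpos
    have hq2 : (ρ t).p i / D ≤ (ρ (t + m')).p i / D + 1 := by
      calc (ρ t).p i / D ≤ ((ρ (t + m')).p i + D) / D := Nat.div_le_div_right (by omega)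
        _ = (ρ (t + m')).p i / D + 1 := Nat.add_div_right _ hDpos
    omega

/-- Solo pieces are phases. -/
theorem phase_solo (C : Code Q) (M : NMach (Fin 4) k (Q × St)) {N : ℕ} (hN : 1 ≤ N)
    (b : Fin (3 * k + 1) → Fin N → Bool) {ρ : ℕ → NCfg k (Q × St)} (h : Fin k) (t m : ℕ)
    (h1 : ∀ s, t ≤ s → s < t + m → M.Step (C.W b) (ρ s) (ρ (s + 1)))
    (h2 : ∀ s, t ≤ s → s < t + m → ∀ i, i ≠ h → (ρ (s + 1)).p i = (ρ s).p i)
    (h3 : ∀ s, t ≤ s → s < t + m → (ρ (s + 1)).q.2 = (ρ s).q.2) :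
    ∃ r, Phase C M b r (ρ t) (ρ (t + m)) := by
  obtain ⟨D, hD⟩ : ∃ D, D = N * (C.x₁.length + 1) + 1 := ⟨_, rfl⟩
  obtain ⟨r, hr⟩ := exists_row (fun (i : Fin k) (e : Fin 3) =>
    if e = 0 then (ρ t).p i / D else (ρ (t + m)).p i / D)
  refine ⟨r, ?_⟩
  unfold Phase
  have hW := C.W_split b r
  have hZ : 1 ≤ (C.zone (List.ofFn (b r))).length := by
    rw [C.zone_length]
    simp only [List.length_ofFn]
    nlinarith
  have e0 : ∀ i, (ρ t).p i / D ≠ r.val + 1 := by
    intro i
    have := hr i 0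
    simpa using this
  have e1 : ∀ i, (ρ (t + m)).p i / D ≠ r.val + 1 := by
    intro i
    have := hr i 1
    simpa using this
  rw [hD] at e0 e1
  refine (free_of_solo hZ (h := h) m t ?_ h2 h3 ?_ ?_).1 ?_
  · intro s hs hs'
    rw [← hW]
    exact h1 s hs hs'
  · intro i _
    exact out_of_block C b r (e0 i)
  · exact out_of_block C b r (e1 h)
  · exact out_of_block C b r (e0 h)

/-- One more phase does no harm. -/
theorem AccIn.mono {C : Code Q} {M : NMach (Fin 4) k (Q × St)} {g N : ℕ} {K : Finset (NCfg k (Q × St))} {R : ℕ}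
    {c : NCfg k (Q × St)} {b : Fin (g + 1) → Fin N → Bool} (hc : c ∈ K) (h : AccIn C M K R c b) :
    AccIn C M K (R + 1) c b :=
  ⟨0, c, hc, Free.refl c, h⟩

/-- From a computation to phases. -/
theorem accIn_of_run (C : Code Q) (M : NMach (Fin 4) k (Q × St)) {N : ℕ} (hN : 1 ≤ N)
    (K : Finset (NCfg k (Q × St))) (b : Fin (3 * k + 1) → Fin N → Bool)
    (hK : ∀ c : NCfg k (Q × St), (∀ i, c.p i ≤ (C.W b).length + 1) → c ∈ K)
    (G n : ℕ) (hG : n ≤ G * (N * (C.x₁.length + 1)))
    {T I : ℕ} {ρ : ℕ → NCfg k (Q × St)} (hρ : M.AccRun (C.W b) T ρ) (hP : Pieces n T I ρ) (hG1 : 1 ≤ G) :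
    AccIn C M K (G * I) (ρ 0) b := by
  obtain ⟨h0, hst, hF⟩ := hρ
  obtain ⟨τ, ht0, htI, htj⟩ := hP
  have hmono : ∀ j, j ≤ I → τ j ≤ T := by
    have key : ∀ d j, j + d = I → τ j ≤ T := by
      intro d
      induction d with
      | zero => intro j hj; rw [← htI, ← hj]; simp
      | succ d ih => intro j hj; exact (htj j (by omega)).1.trans (ih (j + 1) (by omega))
    intro j hj
    obtain ⟨d, hd⟩ := Nat.exists_eq_add_of_le hj
    exact key d j hd.symm
  have hpos : ∀ t, t ≤ T → ∀ i, (ρ t).p i ≤ (C.W b).length + 1 := by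
    intro t ht i
    have := (pos_close (M := M) (w := C.W b) (ρ := ρ) (t := 0) t
      (fun s _ hs' => hst s (by omega)) (by rw [h0]; intro i; simp) i).2.2
    rwa [Nat.zero_add] at this
  obtain ⟨ℓ, hℓ⟩ : ∃ ℓ, ℓ = N * (C.x₁.length + 1) := ⟨_, rfl⟩
  have hℓ1 : 1 ≤ ℓ := by rw [hℓ]; nlinarith
  -- short segments
  have hseg : ∀ (G' R t m : ℕ), t + m ≤ T → m ≤ G' * ℓ →
      AccIn C M K R (ρ (t + m)) b → AccIn C M K (G' + R) (ρ t) b := by
    intro G'
    induction G' with
    | zero =>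
      intro R t m _ hm hacc
      have : m = 0 := by omega
      subst this
      rw [Nat.zero_add]; exact hacc
    | succ G' ih =>
      intro R t m htm hm hacc
      have e : G' + 1 + R = (G' + R) + 1 := by ring
      rw [e]
      by_cases hmℓ : m ≤ ℓ
      · obtain ⟨r, hr⟩ := phase_short C M b t m (by rw [← hℓ]; exact hmℓ)
          (fun s _ hs' => hst s (by omega)) (hpos t (by omega))
        refine ⟨r, ρ (t + m), hK _ (hpos _ htm), hr, ?_⟩
        have := ih R (t + m) 0 (by omega) (by omega) (by simpa using hacc)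
        exact this
      · obtain ⟨r, hr⟩ := phase_short C M b t ℓ (by rw [← hℓ])
          (fun s _ hs' => hst s (by omega)) (hpos t (by omega))
        refine ⟨r, ρ (t + ℓ), hK _ (hpos _ (by omega)), hr, ?_⟩
        have e2 : (G' + 1) * ℓ = G' * ℓ + ℓ := by ring
        refine ih R (t + ℓ) (m - ℓ) (by omega) (by omega) ?_
        rw [show t + ℓ + (m - ℓ) = t + m by omega]
        exact hacc
  have key : ∀ d j, j + d = I → AccIn C M K (G * d) (ρ (τ j)) b := by
    intro d
    induction d with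
    | zero =>
      intro j hj
      have : j = I := by omega
      rw [this, htI, Nat.mul_zero]
      exact hF
    | succ d ih =>
      intro j hj
      have hacc := ih (j + 1) (by omega)
      obtain ⟨hle, hor⟩ := htj j (by omega)
      have hjT := hmono (j + 1) (by omega)
      obtain ⟨m, hm⟩ := Nat.exists_eq_add_of_le hle
      have e : G * (d + 1) = G + G * d := by ring
      rw [e]
      rcases hor with hor | ⟨h, hor⟩
      · refine hseg G (G * d) (τ j) m (by omega) ?_ (by rw [← hm]; exact hacc)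
        rw [hℓ]
        omega
      · -- solo piece: one phase and `G - 1` empty ones
        obtain ⟨r, hr⟩ := phase_solo C M hN b h (τ j) m (fun s _ hs' => hst s (by omega))
          (fun s hs hs' => (hor s hs (by omega)).2) (fun s hs hs' => (hor s hs (by omega)).1)
        obtain ⟨G', rfl⟩ : ∃ G', G = G' + 1 := ⟨G - 1, by omega⟩
        have e3 : G' + 1 + (G' + 1) * d = (G' + (G' + 1) * d) + 1 := by ring
        rw [e3]
        refine ⟨r, ρ (τ j + m), hK _ (hpos _ (by omega)), hr, ?_⟩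
        rw [← hm]
        have : ∀ G'' R, AccIn C M K R (ρ (τ (j + 1))) b → AccIn C M K (G'' + R) (ρ (τ (j + 1))) b := by
          intro G''
          induction G'' with
          | zero => intro R h; rw [Nat.zero_add]; exact h
          | succ G'' ih2 =>
            intro R h
            have := AccIn.mono (hK _ (hpos _ hjT)) (ih2 R h)
            rwa [show G'' + R + 1 = G'' + 1 + R by ring] at this
        exact this G' _ hacc
  have := key I 0 (by omega)
  rwa [ht0] at this

/-- From phases to a computation. -/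
theorem run_of_accIn (C : Code Q) (M : NMach (Fin 4) k (Q × St)) {g N : ℕ}
    (K : Finset (NCfg k (Q × St))) (b : Fin g → Fin N → Bool) :
    ∀ R c, AccIn C M K R c b → ∃ d, Relation.ReflTransGen (M.Step (C.W b)) c d ∧ d.q ∈ M.F := by
  intro R
  induction R with
  | zero => intro c h; exact ⟨c, Relation.ReflTransGen.refl, h⟩
  | succ R ih =>
    rintro c ⟨r, d, _, h1, h2⟩
    obtain ⟨e, h3, h4⟩ := ih d h2
    refine ⟨e, ?_, h4⟩
    have h5 := Free.sound h1
    rw [← C.W_split b r] at h5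
    exact h5.trans h3

end Pool.Agent.TH706.NM
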