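import Pool.Agent.TH706.NM.Count
import Pool.Agent.H867R4.NLower

set_option autoImplicit false

/-!
# The lower bound for nondeterministic automata with several heads and a memory

(after `Pool.Agent.H867R4.NLower`)
-/

namespace Pool.Agent.TH706.NM

open Finset
open Pool.Agent.H541R2 (rd mv gsign mu mu_nonneg mu_lt_one isCyl_univ sign_card num_aux theLang)
open Pool.Agent.H867R4 (NMach NCfg Code exists_code cfgs cfgs_card mem_cfgs log_kappa_le W_mem
  accepts_of_reach)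

variable {k : ℕ} {Q St : Type}

/-- The lower bound for the number of pieces. -/
theorem lower_bound (k : ℕ) (Q : Type) [Fintype Q] :
    ∃ c : ℝ, 0 < c ∧ ∀ n₀ : ℕ, ∃ n : ℕ, n₀ ≤ n ∧ ∀ (St : Type) [Fintype St]
      (M : NMach (Fin 4) k (Q × St)),
      (∀ w : List (Fin 4), w.length = n → (w ∈ theLang ↔ M.Accepts w)) →
      ∃ w : List (Fin 4), w.length = n ∧ w ∈ theLang ∧ ∀ (T I : ℕ) (ρ : ℕ → NCfg k (Q × St)),
        M.AccRun w T ρ → Pieces n T I ρ →
        c * (n : ℝ) ≤ I * (Real.log (Fintype.card St) + Real.log n) := by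
  classical
  by_cases hQ : Nonempty Q
  swap
  · refine ⟨1, one_pos, fun n₀ => ⟨n₀, le_rfl, fun St _ M => ?_⟩⟩
    exact absurd ⟨M.q₀.1⟩ hQ
  obtain ⟨C⟩ := exists_code Q
  obtain ⟨V, hV⟩ : ∃ V, V = C.x₁.length + 1 := ⟨_, rfl⟩
  have hV1 : 1 ≤ V := by omega
  obtain ⟨g, hg⟩ : ∃ g, g = 3 * k := ⟨_, rfl⟩
  obtain ⟨μ', hμ'⟩ : ∃ μ' : ℝ, μ' = max (mu g) (1 / 2) := ⟨_, rfl⟩
  have hμ'1 : μ' < 1 := by rw [hμ']; exact max_lt (mu_lt_one g) (by norm_num)
  have hμ'0 : 0 < μ' := by rw [hμ']; exact lt_of_lt_of_le (by norm_num) (le_max_right _ _)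
  obtain ⟨lam, hlam⟩ : ∃ lam : ℝ, lam = -Real.log μ' := ⟨_, rfl⟩
  have hlam0 : 0 < lam := by
    have := Real.log_neg hμ'0 hμ'1
    linarith
  obtain ⟨C4, hC4⟩ : ∃ C4 : ℝ, C4 = (g + 2) * (V + 1) := ⟨_, rfl⟩
  have hC40 : 0 < C4 := by rw [hC4]; positivity
  have hlog2 : 0 < Real.log 2 := Real.log_pos (by norm_num)
  have hcardQ : (1 : ℝ) ≤ Fintype.card Q := by
    exact_mod_cast Fintype.card_pos
  have hlogQ : 0 ≤ Real.log (Fintype.card Q) := Real.log_nonneg hcardQ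
  have hg1 : (1 : ℝ) ≤ g + 1 := by
    have : (0 : ℝ) ≤ g := by positivity
    linarith
  have hlogg : 0 ≤ Real.log ((g : ℝ) + 1) := Real.log_nonneg hg1
  obtain ⟨C2, hC2⟩ : ∃ C2 : ℝ, C2 = Real.log ((g : ℝ) + 1) / Real.log 2 +
      Real.log (Fintype.card Q) / Real.log 2 + 2 * k + 1 := ⟨_, rfl⟩
  have hC20 : 0 < C2 := by rw [hC2]; positivity
  obtain ⟨G, hG⟩ : ∃ G : ℕ, G = 2 * (g + 2) := ⟨_, rfl⟩
  have hG1 : 1 ≤ G := by omega
  have hG0 : (0 : ℝ) < G := by exact_mod_cast hG1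
  refine ⟨lam / (2 * C4 * C2 * G), by positivity, fun n₀ => ?_⟩
  -- choose `N`
  have hev : ∀ᶠ N : ℕ in Filter.atTop, (Real.sqrt μ') ^ N < 1 / 4 ∧ μ' ^ N < 1 / 2 ∧
      n₀ ≤ N ∧ 2 ≤ N := by
    have hs : Real.sqrt μ' < 1 := by
      rw [Real.sqrt_lt' one_pos]; simpa using hμ'1
    have t1 := tendsto_pow_atTop_nhds_zero_of_lt_one (Real.sqrt_nonneg μ') hs
    have t2 := tendsto_pow_atTop_nhds_zero_of_lt_one hμ'0.le hμ'1
    filter_upwards [t1.eventually (gt_mem_nhds (show (0:ℝ) < 1/4 by norm_num)),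
      t2.eventually (gt_mem_nhds (show (0:ℝ) < 1/2 by norm_num)),
      Filter.eventually_ge_atTop n₀, Filter.eventually_ge_atTop 2] with N a1 a2 a3 a4
    exact ⟨a1, a2, a3, a4⟩
  obtain ⟨N, hN1, hN2, hN3, hN4⟩ := hev.exists
  obtain ⟨n, hn⟩ : ∃ n, n = (g + 2) * (N * V + 1) - 1 := ⟨_, rfl⟩
  have hn1 : n + 1 = (g + 2) * (N * V + 1) := by
    have : 1 ≤ (g + 2) * (N * V + 1) := Nat.one_le_iff_ne_zero.mpr (by positivity)
    omega
  have hNV : N ≤ N * V := Nat.le_mul_of_pos_right _ (by omega)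
  have hnN : N ≤ n := by
    have h1 : N * V + 1 ≤ (g + 2) * (N * V + 1) := Nat.le_mul_of_pos_left _ (by omega)
    omega
  have hnG : n ≤ G * (N * V) := by
    have h1 : (g + 2) * (N * V + 1) ≤ (g + 2) * (N * V + N * V) :=
      Nat.mul_le_mul_left _ (by omega)
    have h2 : (g + 2) * (N * V + N * V) = G * (N * V) := by rw [hG]; ring
    omega
  refine ⟨n, by omega, ?_⟩
  intro St _ M hM
  have hSt1 : 1 ≤ Fintype.card St := Fintype.card_pos_iff.2 ⟨M.q₀.2⟩
  have hSt : (1 : ℝ) ≤ Fintype.card St := by exact_mod_cast hSt1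
  have hlogS : 0 ≤ Real.log (Fintype.card St) := Real.log_nonneg hSt
  subst hg
  have hlenW : ∀ b : Fin (3 * k + 1) → Fin N → Bool, (C.W b).length = n := by
    intro b
    have := C.W_length b
    rw [← hV] at this
    have e : (3 * k + 1 + 1) * (N * V + 1) = (3 * k + 2) * (N * V + 1) := by ring
    omega
  obtain ⟨K, hK⟩ : ∃ K, K = cfgs (Q := Q × St) k n := ⟨_, rfl⟩
  have hn2 : (2 : ℝ) ≤ n := by exact_mod_cast (hN4.trans hnN)
  have hlogn : Real.log 2 ≤ Real.log n := Real.log_le_log (by norm_num) hn2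
  have hlogn0 : 0 < Real.log n := lt_of_lt_of_le hlog2 hlogn
  have hpk : (1 : ℝ) ≤ ((n : ℝ) + 2) ^ k := one_le_pow₀ (by linarith)
  obtain ⟨κ, hκ⟩ : ∃ κ : ℝ, κ = 2 * (Fintype.card St *
      ((((3 * k : ℕ) : ℝ) + 1) * ((Fintype.card Q : ℝ) * ((n : ℝ) + 2) ^ k))) := ⟨_, rfl⟩
  have hκ0 : (1 : ℝ) ≤ (((3 * k : ℕ) : ℝ) + 1) * ((Fintype.card Q : ℝ) * ((n : ℝ) + 2) ^ k) := by
    have h2 : (1 : ℝ) ≤ (Fintype.card Q : ℝ) * ((n : ℝ) + 2) ^ k := by nlinarith
    nlinarith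
  have hκK : (((3 * k : ℕ) : ℝ) + 1) * (K.card : ℝ) ≤ κ := by
    have := cfgs_card (Q := Q × St) k n
    rw [← hK, Fintype.card_prod] at this
    have h2 : (K.card : ℝ) ≤ ((Fintype.card Q * Fintype.card St * (n + 2) ^ k : ℕ) : ℝ) := by
      exact_mod_cast this
    push_cast at h2
    have h3 : (((3 * k : ℕ) : ℝ) + 1) * (K.card : ℝ) ≤
        (((3 * k : ℕ) : ℝ) + 1) * ((Fintype.card Q : ℝ) * Fintype.card St * ((n : ℝ) + 2) ^ k) :=
      mul_le_mul_of_nonneg_left h2 (by linarith)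
    have h4 : (((3 * k : ℕ) : ℝ) + 1) * ((Fintype.card Q : ℝ) * Fintype.card St *
        ((n : ℝ) + 2) ^ k) = Fintype.card St *
      ((((3 * k : ℕ) : ℝ) + 1) * ((Fintype.card Q : ℝ) * ((n : ℝ) + 2) ^ k)) := by ring
    have h5 : 0 ≤ (Fintype.card St : ℝ) *
      ((((3 * k : ℕ) : ℝ) + 1) * ((Fintype.card Q : ℝ) * ((n : ℝ) + 2) ^ k)) := by positivity
    rw [hκ]
    linarith
  have hκ2 : 2 ≤ κ := by
    have h5 : (1 : ℝ) ≤ (Fintype.card St : ℝ) *
      ((((3 * k : ℕ) : ℝ) + 1) * ((Fintype.card Q : ℝ) * ((n : ℝ) + 2) ^ k)) := by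
      nlinarith
    rw [hκ]
    linarith
  have hlogκ : 0 < Real.log κ := Real.log_pos (by linarith)
  have hlogκle : Real.log κ ≤ C2 * (Real.log (Fintype.card St) + Real.log n) := by
    rw [hκ, hC2, Real.log_mul (by norm_num) (by positivity),
      Real.log_mul (by positivity) (by positivity)]
    have := log_kappa_le k hcardQ hg1 hn2
    have h3 : (Real.log (((3 * k : ℕ) : ℝ) + 1) / Real.log 2 +
      Real.log (Fintype.card Q) / Real.log 2 + 2 * k + 1) *
        (Real.log (Fintype.card St) + Real.log n) =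
      (Real.log (((3 * k : ℕ) : ℝ) + 1) / Real.log 2 +
      Real.log (Fintype.card Q) / Real.log 2 + 2 * k) * Real.log n + Real.log n +
      ((Real.log (((3 * k : ℕ) : ℝ) + 1) / Real.log 2 +
      Real.log (Fintype.card Q) / Real.log 2 + 2 * k) * Real.log (Fintype.card St) +
        Real.log (Fintype.card St)) := by ring
    have h4 : 0 ≤ (Real.log (((3 * k : ℕ) : ℝ) + 1) / Real.log 2 +
      Real.log (Fintype.card Q) / Real.log 2 + 2 * k) * Real.log (Fintype.card St) := by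
      apply mul_nonneg _ hlogS
      have h5 : 0 ≤ Real.log (((3 * k : ℕ) : ℝ) + 1) / Real.log 2 := div_nonneg hlogg hlog2.le
      have h6 : 0 ≤ Real.log (Fintype.card Q) / Real.log 2 := div_nonneg hlogQ hlog2.le
      positivity
    rw [h3]
    linarith
  -- number of phases
  obtain ⟨R, hR1, hR2⟩ : ∃ R : ℕ, (R : ℝ) * Real.log κ ≤ N * lam / 2 ∧
      (N * lam / 2 : ℝ) ≤ (R + 1) * Real.log κ := by
    refine ⟨⌊(N * lam / 2) / Real.log κ⌋₊, ?_, ?_⟩
    · have := Nat.floor_le (a := (N * lam / 2) / Real.log κ) (by positivity)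
      rwa [le_div_iff₀ hlogκ] at this
    · have := (Nat.lt_floor_add_one ((N * lam / 2) / Real.log κ)).le
      rwa [div_le_iff₀ hlogκ] at this
  have hKmem : ∀ (b : Fin (3 * k + 1) → Fin N → Bool) (c : NCfg k (Q × St)),
      (∀ i, c.p i ≤ (C.W b).length + 1) → c ∈ K := by
    intro b c hc
    rw [hK]
    apply mem_cfgs
    intro i
    rw [← hlenW b]
    exact hc i
  have hinit : (⟨M.q₀, fun _ => 0⟩ : NCfg k (Q × St)) ∈ K := by
    apply hKmem (fun _ _ => true)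
    intro i
    exact Nat.zero_le _
  -- a good matrix exists
  have hgood : ∃ b : Fin (3 * k + 1) → Fin N → Bool, gsign Finset.univ b = -1 ∧
      ¬ AccIn C M K R (⟨M.q₀, fun _ => 0⟩ : NCfg k (Q × St)) b := by
    by_contra hcon0
    have hcon : ∀ b : Fin (3 * k + 1) → Fin N → Bool, gsign Finset.univ b = -1 →
        AccIn C M K R (⟨M.q₀, fun _ => 0⟩ : NCfg k (Q × St)) b := by
      intro b hb
      by_contra hh
      exact hcon0 ⟨b, hb, hh⟩
    have h5 := accIn_card C M K (-1) (by norm_num) R (⟨M.q₀, fun _ => 0⟩ : NCfg k (Q × St))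
      (Set.univ : Set (Fin (3 * k + 1) → Fin N → Bool)) isCyl_univ (by
        intro b _ hacc
        rw [← W_mem C b, hM _ (hlenW b)]
        obtain ⟨d, hd1, hd2⟩ := run_of_accIn C M K b R _ hacc
        exact accepts_of_reach M _ hd1 hd2)
    have h4 : (2 ^ N : ℝ) ^ (3 * k + 1) * (1 - (mu (3 * k)) ^ N) / 2 ≤
        ((Finset.univ.filter (fun b : Fin (3 * k + 1) → Fin N → Bool =>
          b ∈ (Set.univ : Set (Fin (3 * k + 1) → Fin N → Bool)) ∧
          AccIn C M K R (⟨M.q₀, fun _ => 0⟩ : NCfg k (Q × St)) b)).card : ℝ) := by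
      refine (sign_card (3 * k) N (-1) (Or.inr rfl)).trans ?_
      apply Nat.cast_le.mpr
      apply Finset.card_le_card
      intro b hb
      rw [Finset.mem_filter] at hb ⊢
      exact ⟨Finset.mem_univ _, Set.mem_univ _, hcon b hb.2⟩
    have hmu0 := mu_nonneg (3 * k)
    have h6 : (mu (3 * k)) ^ N ≤ μ' ^ N := pow_le_pow_left₀ hmu0 (by rw [hμ']; exact le_max_left _ _) N
    have h7 : ((((3 * k : ℕ) : ℝ) + 1) * (K.card : ℝ)) ^ R ≤ Real.exp (N * lam / 2) := by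
      calc ((((3 * k : ℕ) : ℝ) + 1) * (K.card : ℝ)) ^ R ≤ κ ^ R := pow_le_pow_left₀ (by positivity) hκK R
        _ = Real.exp (R * Real.log κ) := by
          rw [← Real.log_pow, Real.exp_log (by positivity)]
        _ ≤ _ := Real.exp_le_exp.mpr hR1
    have h8 : Real.exp (N * lam / 2) * μ' ^ N = (Real.sqrt μ') ^ N := by
      have e1 : Real.sqrt μ' = Real.exp (-lam / 2) := by
        rw [Real.sqrt_eq_iff_mul_self_eq hμ'0.le (Real.exp_pos _).le, ← Real.exp_add]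
        have : -lam / 2 + -lam / 2 = Real.log μ' := by rw [hlam]; ring
        rw [this, Real.exp_log hμ'0]
      have e2 : μ' = Real.exp (-lam) := by rw [hlam, neg_neg, Real.exp_log hμ'0]
      rw [e1, ← Real.exp_nat_mul]
      nth_rewrite 1 [e2]
      rw [← Real.exp_nat_mul, ← Real.exp_add]
      congr 1
      ring
    obtain ⟨P, hP⟩ : ∃ P : ℝ, P = (2 ^ N : ℝ) ^ (3 * k + 1) := ⟨_, rfl⟩
    have hP0 : 0 < P := by rw [hP]; positivity
    rw [← hP] at h4 h5
    have h9 : ((((3 * k : ℕ) : ℝ) + 1) * (K.card : ℝ)) ^ R * (P * (mu (3 * k)) ^ N) ≤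
        P * (Real.sqrt μ') ^ N := by
      calc ((((3 * k : ℕ) : ℝ) + 1) * (K.card : ℝ)) ^ R * (P * (mu (3 * k)) ^ N)
          ≤ Real.exp (N * lam / 2) * (P * μ' ^ N) := by gcongr
        _ = P * (Real.exp (N * lam / 2) * μ' ^ N) := by ring
        _ = _ := by rw [h8]
    refine absurd (h4.trans ?_) (not_le.mpr (num_aux hP0 (lt_of_le_of_lt h6 hN2) hN1))
    convert h5.trans h9
  obtain ⟨b, hb, hacc⟩ := hgood
  refine ⟨C.W b, hlenW b, (W_mem C b).mpr hb, ?_⟩
  intro T I ρ hρ hI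
  have hRI : R + 1 ≤ G * I := by
    by_contra hlt
    rw [not_le] at hlt
    apply hacc
    have h1 := accIn_of_run C M (by omega) K b (hKmem b) G n (by rw [← hV]; exact hnG) hρ hI hG1
    rw [hρ.1] at h1
    obtain ⟨e, he⟩ := Nat.exists_eq_add_of_le (show G * I ≤ R by omega)
    rw [he]
    clear he
    induction e with
    | zero => exact h1
    | succ e ihe => exact AccIn.mono hinit ihe
  have hnC : (n : ℝ) ≤ C4 * N := by
    have h1 : (n : ℝ) + 1 = ((3 * k : ℕ) + 2) * (N * V + 1) := by exact_mod_cast hn1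
    have h2 : (1 : ℝ) ≤ N := by
      have : 1 ≤ N := by omega
      exact_mod_cast this
    have h3 : (((3 * k : ℕ) : ℝ) + 2) * (N * V + 1) ≤ ((3 * k : ℕ) + 2) * (N * V + N) := by gcongr
    have h4 : (((3 * k : ℕ) : ℝ) + 2) * (N * V + N) = C4 * N := by rw [hC4]; ring
    linarith
  have hRI' : (R : ℝ) + 1 ≤ G * I := by exact_mod_cast hRI
  have hI0 : (0 : ℝ) ≤ I := by positivity
  calc lam / (2 * C4 * C2 * G) * (n : ℝ) ≤ lam / (2 * C4 * C2 * G) * (C4 * N) := by gcongr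
    _ = (N * lam / 2) / (C2 * G) := by field_simp
    _ ≤ ((R + 1) * Real.log κ) / (C2 * G) := by gcongr
    _ ≤ ((G * I) * (C2 * (Real.log (Fintype.card St) + Real.log n))) / (C2 * G) := by gcongr
    _ = I * (Real.log (Fintype.card St) + Real.log n) := by field_simp

end Pool.Agent.TH706.NM
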